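import Mathlib
import Pool.Agent.H568R2.Defs
import Pool.Agent.H568R2.Count
import Pool.Agent.H72.Gap.AndComp

/-!
From constraint satisfaction problems to cliques: the compatibility graph.
-/

namespace Pool.Agent.H72.Clq

open Finset DomAC0 H568R2

/-- The vertices of the compatibility graph. -/
abbrev W (m B N t : ℕ) : Type := Fin m × (Fin t × Fin B → Fin N)

section Red
variable {m B N t n : ℕ} (s : Fin m → Fin B → Fin m) (f : Fin m → Fin t → Fin m)
  (dec : Fin n → Option (W m B N t))

/-- The local assignments `a` and `b` agree on common variables. -/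
def Cons (a b : W m B N t) : Prop :=
  ∀ i l i' l', s (f a.1 i) l = s (f b.1 i') l' → a.2 (i, l) = b.2 (i', l')

/-- The local assignment `a` satisfies its constraints. -/
def Good (X : Fin m × (Fin B → Fin N) → Bool) (a : W m B N t) : Prop :=
  ∀ i, X (f a.1 i, fun l => a.2 (i, l)) = true

/-- The part of the adjacency that does not depend on the constraints. -/
def St (a b : W m B N t) : Prop :=
  a.1 ≠ b.1 ∧ Cons s f a a ∧ Cons s f b b ∧ Cons s f a b ∧ Cons s f b a

/-- The compatibility graph. -/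
def Gx (X : Fin m × (Fin B → Fin N) → Bool) : SimpleGraph (Fin n) where
  Adj u v := ∃ a b, dec u = some a ∧ dec v = some b ∧ St s f a b ∧ Good f X a ∧ Good f X b
  symm := ⟨by
    rintro u v ⟨a, b, h1, h2, ⟨g1, g2, g3, g4, g5⟩, h4, h5⟩
    exact ⟨b, a, h2, h1, ⟨g1.symm, g3, g2, g5, g4⟩, h5, h4⟩⟩
  loopless := ⟨by
    rintro u ⟨a, b, h1, h2, ⟨g1, _⟩, _⟩
    rw [h1] at h2
    exact g1 (by rw [Option.some.inj h2])⟩

/-- The inputs of the circuits: the bits of the problem and a constant. -/
def sg (X : Fin m × (Fin B → Fin N) → Bool) : Option (Fin m × (Fin B → Fin N)) → Bool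
  | none => false
  | some x => X x

/-- The bits whose conjunction is an adjacency bit. -/
def InA (p : Pairs n) : Option (Fin m × (Fin B → Fin N)) → Prop
  | none => ¬ ∃ a b, dec p.1.1 = some a ∧ dec p.1.2 = some b ∧ St s f a b
  | some x => ∃ a, (dec p.1.1 = some a ∨ dec p.1.2 = some a) ∧
      ∃ i, x = (f a.1 i, fun l => a.2 (i, l))

lemma inA_iff (X : Fin m × (Fin B → Fin N) → Bool) (p : Pairs n) :
    (∀ o, InA s f dec p o → sg X o = true) ↔ (Gx s f dec X).Adj p.1.1 p.1.2 := by
  constructor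
  · intro h
    have h0 : ∃ a b, dec p.1.1 = some a ∧ dec p.1.2 = some b ∧ St s f a b := by
      by_contra hcon
      have := h none hcon
      exact absurd this (by simp [sg])
    obtain ⟨a, b, ha, hb, hst⟩ := h0
    refine ⟨a, b, ha, hb, hst, fun i => ?_, fun i => ?_⟩
    · exact h (some _) ⟨a, Or.inl ha, i, rfl⟩
    · exact h (some _) ⟨b, Or.inr hb, i, rfl⟩
  · rintro ⟨a, b, ha, hb, hst, ga, gb⟩ o ho
    cases o with
    | none => exact absurd ⟨a, b, ha, hb, hst⟩ ho
    | some x =>
      obtain ⟨c, hc, i, rfl⟩ := ho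
      rcases hc with hc | hc
      · rw [ha] at hc
        rw [← Option.some.inj hc]
        exact ga i
      · rw [hb] at hc
        rw [← Option.some.inj hc]
        exact gb i

/-- Circuits for graphs give circuits for problems. -/
lemma red_circuit (K : Circuit (Pairs n)) :
    ∃ K' : Circuit (Option (Fin m × (Fin B → Fin N))), K'.depth ≤ K.depth + 1 ∧
      K'.size = Fintype.card (Pairs n) + K.size ∧
      ∀ X, K'.eval (sg X) = K.eval (adjBits (Gx s f dec X)) := by
  classical
  obtain ⟨e⟩ : Nonempty (Pairs n ≃ Fin (Fintype.card (Pairs n))) := ⟨Fintype.equivFin _⟩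
  refine ⟨Gap.andComp K _ e (fun g => univ.filter (InA s f dec (e.symm g))),
    Gap.andComp_depth K _ _ _, rfl, fun X => ?_⟩
  rw [Gap.andComp_eval]
  congr 1
  funext p
  rw [Bool.eq_iff_iff, Gap.inp_iff]
  unfold adjBits
  rw [decide_eq_true_eq, ← inA_iff s f dec X p]
  simp only [Finset.mem_filter, Finset.mem_univ, true_and, Equiv.symm_apply_apply]

/-- A solution gives a clique. -/
lemma clique_of_sat (hdec : ∀ a, ∃ u, dec u = some a)
    (X : Fin m × (Fin B → Fin N) → Bool) (α : Fin m → Fin N)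
    (hX : ∀ c, X (vr s α c) = true) : ¬ (Gx s f dec X).CliqueFree m := by
  classical
  obtain ⟨a, ha⟩ : ∃ a : Fin m → W m B N t, a = fun j => (j, fun p => α (s (f j p.1) p.2)) :=
    ⟨_, rfl⟩
  have ha1 : ∀ j, (a j).1 = j := fun j => by rw [ha]
  have ha2 : ∀ j i l, (a j).2 (i, l) = α (s (f j i) l) := fun j i l => by rw [ha]
  choose u hu using fun j => hdec (a j)
  have hinj : Function.Injective u := by
    intro j j' h
    have h1 := hu j
    rw [h, hu j'] at h1
    have h2 := Option.some.inj h1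
    rw [← ha1 j, ← ha1 j', h2]
  have hcons : ∀ j j', Cons s f (a j) (a j') := by
    intro j j' i l i' l' h
    rw [ha1, ha1] at h
    rw [ha2, ha2, h]
  have hgood : ∀ j, Good f X (a j) := by
    intro j i
    have h1 := hX (f j i)
    unfold vr at h1
    rw [← h1]
    congr 1
    refine Prod.ext ?_ ?_
    · show f (a j).1 i = f j i
      rw [ha1]
    · funext l
      exact ha2 j i l
  intro hfree
  apply hfree (univ.image u)
  rw [SimpleGraph.isNClique_iff]
  constructor
  · rw [SimpleGraph.isClique_iff]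
    intro x hx y hy hxy
    simp only [Finset.coe_image, Finset.coe_univ, Set.image_univ, Set.mem_range] at hx hy
    obtain ⟨j, rfl⟩ := hx
    obtain ⟨j', rfl⟩ := hy
    refine ⟨a j, a j', hu j, hu j', ⟨?_, hcons j j, hcons j' j', hcons j j', hcons j' j⟩,
      hgood j, hgood j'⟩
    rw [ha1, ha1]
    rintro rfl
    exact hxy rfl
  · rw [Finset.card_image_of_injective _ hinj, Finset.card_univ, Fintype.card_fin]

/-- A clique gives an assignment that satisfies many conjunctions. -/
lemma sat_of_clique (hN : 0 < N) (X : Fin m × (Fin B → Fin N) → Bool) (S : Finset (Fin n))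
    (hS : (Gx s f dec X).IsClique (S : Set (Fin n))) (h2 : 2 ≤ S.card) :
    ∃ α : Fin m → Fin N,
      S.card ≤ (univ.filter (fun j => ∀ i, X (vr s α (f j i)) = true)).card := by
  classical
  rw [SimpleGraph.isClique_iff] at hS
  -- the labels of the vertices
  have h3 : ∀ u ∈ S, ∃ a, dec u = some a ∧ Cons s f a a ∧ Good f X a := by
    intro u hu
    obtain ⟨v, hv, hvu⟩ : ∃ v ∈ S, v ≠ u := by
      by_contra hcon
      push Not at hcon
      have : S ⊆ {u} := fun v hv => Finset.mem_singleton.2 (hcon v hv)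
      have := Finset.card_le_card this
      rw [Finset.card_singleton] at this
      omega
    obtain ⟨a, b, h1, h2, ⟨_, g2, _⟩, h4, _⟩ := hS hu hv hvu.symm
    exact ⟨a, h1, g2, h4⟩
  have h4 : ∀ u, ∃ a, u ∈ S → dec u = some a ∧ Cons s f a a ∧ Good f X a := by
    intro u
    by_cases hu : u ∈ S
    · obtain ⟨a, ha⟩ := h3 u hu
      exact ⟨a, fun _ => ha⟩
    · have hne : S.Nonempty := Finset.card_pos.1 (by omega)
      obtain ⟨v, hv⟩ := hne
      obtain ⟨a, _⟩ := h3 v hv
      exact ⟨a, fun h => absurd h hu⟩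
  choose a ha using h4
  have hcons : ∀ u ∈ S, ∀ v ∈ S, Cons s f (a u) (a v) := by
    intro u hu v hv
    by_cases huv : u = v
    · subst huv
      exact (ha u hu).2.1
    · obtain ⟨a', b', g1, g2, ⟨_, _, _, g4, _⟩, _⟩ := hS hu hv huv
      rw [(ha u hu).1] at g1
      rw [(ha v hv).1] at g2
      rw [Option.some.inj g1, Option.some.inj g2]
      exact g4
  have hne : ∀ u ∈ S, ∀ v ∈ S, u ≠ v → (a u).1 ≠ (a v).1 := by
    intro u hu v hv huv
    obtain ⟨a', b', g1, g2, ⟨g3, _⟩, _⟩ := hS hu hv huv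
    rw [(ha u hu).1] at g1
    rw [(ha v hv).1] at g2
    rw [Option.some.inj g1, Option.some.inj g2]
    exact g3
  have hval : ∀ v : Fin m, ∃ x : Fin N, ∀ u ∈ S, ∀ i l, s (f (a u).1 i) l = v →
      (a u).2 (i, l) = x := by
    intro v
    by_cases h : ∃ u ∈ S, ∃ i l, s (f (a u).1 i) l = v
    · obtain ⟨u₀, hu₀, i₀, l₀, h₀⟩ := h
      refine ⟨(a u₀).2 (i₀, l₀), fun u hu i l hv => ?_⟩
      exact hcons u hu u₀ hu₀ i l i₀ l₀ (hv.trans h₀.symm)
    · refine ⟨⟨0, hN⟩, fun u hu i l hv => ?_⟩
      exact absurd ⟨u, hu, i, l, hv⟩ h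
  choose α hα using hval
  refine ⟨α, ?_⟩
  rw [← Finset.card_image_of_injOn (f := fun u => (a u).1) (s := S) ?_]
  · apply Finset.card_le_card
    intro j hj
    obtain ⟨u, hu, rfl⟩ := Finset.mem_image.1 hj
    rw [Finset.mem_filter]
    refine ⟨Finset.mem_univ _, fun i => ?_⟩
    have h1 := (ha u hu).2.2 i
    rw [← h1]
    unfold vr
    congr 1
    refine Prod.ext rfl ?_
    funext l
    exact (hα _ u hu i l rfl).symm
  · intro u hu v hv huv
    by_contra hcon
    exact hne u hu v hv hcon huv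

end Red

end Pool.Agent.H72.Clq
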