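import Mathlib

/-!
A sampler: `m` tuples with `t` entries out of `m` points such that every set of at most three
quarters of the points contains few of the tuples.
-/

namespace Pool.Agent.H72.Clq

open Finset

theorem card_tuples {m t : ℕ} (A J : Finset (Fin m)) :
    (Fintype.piFinset (fun j : Fin m => if j ∈ J then Fintype.piFinset (fun _ : Fin t => A)
      else (univ : Finset (Fin t → Fin m)))).card = (A.card ^ t) ^ J.card *
        (m ^ t) ^ (m - J.card) := by
  classical
  rw [Fintype.card_piFinset]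
  have h : ∀ j : Fin m, (if j ∈ J then Fintype.piFinset (fun _ : Fin t => A)
      else (univ : Finset (Fin t → Fin m))).card = if j ∈ J then A.card ^ t else m ^ t := by
    intro j
    split_ifs
    · rw [Fintype.card_piFinset, Finset.prod_const, Finset.card_univ, Fintype.card_fin]
    · rw [Finset.card_univ, Fintype.card_fun, Fintype.card_fin, Fintype.card_fin]
  simp_rw [h]
  rw [Finset.prod_ite, Finset.prod_const, Finset.prod_const]
  congr 2
  · congr 1
    ext j; simp
  · have : (univ.filter (fun j => j ∉ J)) = Jᶜ := by ext j; simp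
    rw [this, Finset.card_compl, Fintype.card_fin]

theorem sampler (m t : ℕ) (hm : 1 ≤ m) (δ : ℝ) (hδ : 5 ≤ t * δ) :
    ∃ f : Fin m → Fin t → Fin m, ∀ A : Finset (Fin m), 4 * A.card ≤ 3 * m →
      ((univ.filter (fun j => ∀ i, f j i ∈ A)).card : ℝ) ≤ δ * m := by
  classical
  by_contra hcon
  push Not at hcon
  obtain ⟨P, hP⟩ : ∃ P : Finset (Finset (Fin m) × Finset (Fin m)),
      P = univ.filter (fun AJ => 4 * AJ.1.card ≤ 3 * m ∧ δ * m < (AJ.2.card : ℝ)) := ⟨_, rfl⟩
  have hmR : (1 : ℝ) ≤ m := by exact_mod_cast hm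
  have hsub : (univ : Finset (Fin m → Fin t → Fin m)) ⊆ P.biUnion (fun AJ =>
      Fintype.piFinset (fun j : Fin m => if j ∈ AJ.2 then Fintype.piFinset (fun _ : Fin t => AJ.1)
        else (univ : Finset (Fin t → Fin m)))) := by
    intro f _
    obtain ⟨A, hA, hJ⟩ := hcon f
    rw [Finset.mem_biUnion]
    refine ⟨(A, univ.filter (fun j => ∀ i, f j i ∈ A)), ?_, ?_⟩
    · rw [hP, Finset.mem_filter]
      exact ⟨Finset.mem_univ _, hA, hJ⟩
    · rw [Fintype.mem_piFinset]
      intro j
      dsimp only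
      split_ifs with h
      · rw [Fintype.mem_piFinset]
        exact (Finset.mem_filter.1 h).2
      · exact Finset.mem_univ _
  have h1 := (Finset.card_le_card hsub).trans Finset.card_biUnion_le
  rw [Finset.card_univ, Fintype.card_fun, Fintype.card_fun, Fintype.card_fin, Fintype.card_fin]
    at h1
  have h2 : ∀ AJ ∈ P, ((Fintype.piFinset (fun j : Fin m => if j ∈ AJ.2 then
      Fintype.piFinset (fun _ : Fin t => AJ.1)
        else (univ : Finset (Fin t → Fin m)))).card : ℝ) ≤
        (m ^ t : ℝ) ^ m * (243 / 1024) ^ m := by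
    intro AJ hAJ
    rw [hP, Finset.mem_filter] at hAJ
    obtain ⟨_, hA, hJ⟩ := hAJ
    rw [card_tuples]
    have hJm : AJ.2.card ≤ m := by
      have := Finset.card_le_univ AJ.2
      rwa [Fintype.card_fin] at this
    have hAR : (AJ.1.card : ℝ) ≤ 3 / 4 * m := by
      have : ((4 * AJ.1.card : ℕ) : ℝ) ≤ ((3 * m : ℕ) : ℝ) := by exact_mod_cast hA
      push_cast at this
      linarith
    have hexp : 5 * m ≤ t * AJ.2.card := by
      have : (5 : ℝ) * m ≤ t * AJ.2.card := by
        have e1 : (5 : ℝ) * m ≤ t * δ * m := mul_le_mul_of_nonneg_right hδ (by positivity)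
        have e2 : (t : ℝ) * (δ * m) ≤ t * AJ.2.card :=
          mul_le_mul_of_nonneg_left hJ.le (Nat.cast_nonneg t)
        linarith
      exact_mod_cast this
    push_cast
    calc ((AJ.1.card : ℝ) ^ t) ^ AJ.2.card * ((m : ℝ) ^ t) ^ (m - AJ.2.card)
        ≤ ((3 / 4 * m : ℝ) ^ t) ^ AJ.2.card * ((m : ℝ) ^ t) ^ (m - AJ.2.card) := by gcongr
      _ = (3 / 4) ^ (t * AJ.2.card) * (((m : ℝ) ^ t) ^ AJ.2.card *
            ((m : ℝ) ^ t) ^ (m - AJ.2.card)) := by
          rw [mul_pow, mul_pow, ← pow_mul]; ring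
      _ = (3 / 4) ^ (t * AJ.2.card) * ((m : ℝ) ^ t) ^ m := by
          rw [← pow_add, Nat.add_sub_cancel' hJm]
      _ ≤ (3 / 4) ^ (5 * m) * ((m : ℝ) ^ t) ^ m := by
          apply mul_le_mul_of_nonneg_right _ (by positivity)
          exact pow_le_pow_of_le_one (by norm_num) (by norm_num) hexp
      _ = ((m : ℝ) ^ t) ^ m * (243 / 1024) ^ m := by
          rw [pow_mul]; norm_num; ring
  have h3 : (P.card : ℝ) ≤ 4 ^ m := by
    have : P.card ≤ 2 ^ m * 2 ^ m := by
      refine (Finset.card_le_univ P).trans ?_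
      rw [Fintype.card_prod, Fintype.card_finset, Fintype.card_fin]
    calc (P.card : ℝ) ≤ ((2 ^ m * 2 ^ m : ℕ) : ℝ) := by exact_mod_cast this
      _ = 4 ^ m := by push_cast; rw [← mul_pow]; norm_num
  have h4 : ((m ^ t : ℝ) ^ m) ≤ 4 ^ m * ((m ^ t : ℝ) ^ m * (243 / 1024) ^ m) := by
    calc ((m ^ t : ℝ) ^ m) = (((m ^ t) ^ m : ℕ) : ℝ) := by push_cast; rfl
      _ ≤ ∑ AJ ∈ P, ((Fintype.piFinset (fun j : Fin m => if j ∈ AJ.2 then
          Fintype.piFinset (fun _ : Fin t => AJ.1)
          else (univ : Finset (Fin t → Fin m)))).card : ℝ) := by exact_mod_cast h1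
      _ ≤ ∑ _AJ ∈ P, (m ^ t : ℝ) ^ m * (243 / 1024) ^ m := Finset.sum_le_sum h2
      _ = P.card * ((m ^ t : ℝ) ^ m * (243 / 1024) ^ m) := by
          rw [Finset.sum_const, nsmul_eq_mul]
      _ ≤ _ := mul_le_mul_of_nonneg_right h3 (by positivity)
  have h5 : (4 : ℝ) ^ m * (243 / 1024) ^ m < 1 := by
    rw [← mul_pow]
    exact pow_lt_one₀ (by norm_num) (by norm_num) (by omega)
  have h6 : (0 : ℝ) < (m ^ t : ℝ) ^ m := by positivity
  nlinarith

end Pool.Agent.H72.Clq
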