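import Mathlib
import Pool.Agent.H592R7.AvgSat
import Pool.Agent.H72.Clq.Samp
import Pool.Agent.H72.Clq.Red

/-!
Gap clique is hard on average for circuits of small depth.
-/

set_option linter.unusedSectionVars false

namespace Pool.Agent.H72.Clq

open Finset DomAC0 H568R2 SmallDepth H592R3 H592R3.Mb2 H592R3.Mb3 H592R3.MbU

/-- Every clique has at most `c` vertices. -/
def CliquesLe {n : ℕ} (c : ℝ) (G : SimpleGraph (Fin n)) : Prop :=
  ∀ S : Finset (Fin n), G.IsClique (S : Set (Fin n)) → (S.card : ℝ) ≤ c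

open Classical in
theorem clique_core (t : ℕ) (δ : ℝ) (hδ : 5 ≤ t * δ) (D m' b n : ℕ) (hD : 1 ≤ D)
    (hm' : 2 ≤ m') (hb : 1 ≤ b)
    (hA : 2 * (12 * (2 * (D * (E1 12 * m' + 0)))) ^ 16 ≤ 2 ^ b)
    (hB1 : 2 ^ (2 * 12 + 16) * b ^ 4 ≤ 2 ^ b)
    (hB2 : 4 * 12 + 8 ≤ D * b)
    (hn : 12 * m' * (2 ^ (2 * D * b)) ^ (t * (2 * 12 ^ 2 + 14 + 1)) ≤ n)
    (hc : 1 ≤ δ * (12 * m' : ℕ)) :
    ∃ ν₀ ν₁ : SimpleGraph (Fin n) → ℝ,
      ((∀ G, 0 ≤ ν₀ G) ∧ ∑ G, ν₀ G = 1) ∧ ((∀ G, 0 ≤ ν₁ G) ∧ ∑ G, ν₁ G = 1) ∧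
      (∀ G, ν₁ G ≠ 0 → ¬ G.CliqueFree (12 * m')) ∧
      (∑ G, ν₀ G * (if CliquesLe (δ * (12 * m' : ℕ)) G then 0 else 1)) ≤
        (2 : ℝ) ^ (-((((2 * 12 - 12) * (D * b * m') : ℕ) : ℝ) / 10)) ∧
      ∀ K : Circuit (Pairs n), K.depth + 1 ≤ D →
        Fintype.card (Pairs n) + K.size ≤ 2 ^ ((2 * 12 - 12) * (D * b * m')) →
        |(∑ G, ν₀ G * (if K.eval (adjBits G) = true then 1 else 0)) -
          ∑ G, ν₁ G * (if K.eval (adjBits G) = true then 1 else 0)| ≤ 3 / 2 ^ (D * b) := by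
  obtain ⟨s, hs, hsexp, hssm⟩ := scopes2 12 m' (by norm_num) (by omega)
  have hQm : 1 ≤ 12 * m' := by omega
  obtain ⟨f, hf⟩ := sampler (12 * m') t hQm δ hδ
  obtain ⟨ι⟩ : Nonempty (W (12 * m') (2 * 12 ^ 2 + 14 + 1) (2 ^ (2 * D * b)) t ↪ Fin n) := by
    apply Function.Embedding.nonempty_of_card_le
    rw [Fintype.card_prod, Fintype.card_fun, Fintype.card_prod, Fintype.card_fin,
      Fintype.card_fin, Fintype.card_fin, Fintype.card_fin, Fintype.card_fin]
    exact hn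
  obtain ⟨dec, hdec'⟩ : ∃ dec : Fin n → Option (W (12 * m') (2 * 12 ^ 2 + 14 + 1)
      (2 ^ (2 * D * b)) t), ∀ a, dec (ι a) = some a :=
    ⟨Function.partialInv ι, fun a => (Function.partialInv_of_injective ι.injective a (ι a)).2 rfl⟩
  have hdec : ∀ a, ∃ u, dec u = some a := fun a => ⟨ι a, hdec' a⟩
  obtain ⟨p, hp⟩ : ∃ p : ℝ, p = (1 / ((2 : ℝ) ^ (D * b)) ^ 3) / 2 := ⟨_, rfl⟩
  have hp0 : 0 ≤ p := by rw [hp]; positivity
  have hp1 : p ≤ 1 := by
    have h1 : (1 : ℝ) ≤ ((2 : ℝ) ^ (D * b)) ^ 3 := one_le_pow₀ (one_le_pow₀ (by norm_num))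
    have h2 : 1 / ((2 : ℝ) ^ (D * b)) ^ 3 ≤ 1 := by
      rw [div_le_one (by positivity)]; exact h1
    rw [hp]
    linarith
  have hμ : ∀ X : (Fin (12 * m') × (Fin (2 * 12 ^ 2 + 14 + 1) → Fin (2 ^ (2 * D * b)))) → Bool,
      0 ≤ ∏ i, vp p (X i) := fun X => Finset.prod_nonneg fun i _ => vp_nonneg hp0 hp1 _
  have hμ1 : ∑ X : (Fin (12 * m') × (Fin (2 * 12 ^ 2 + 14 + 1) → Fin (2 ^ (2 * D * b)))) → Bool,
      ∏ i, vp p (X i) = 1 := by
    have := Ex_const (I := Fin (12 * m') × (Fin (2 * 12 ^ 2 + 14 + 1) → Fin (2 ^ (2 * D * b))))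
      (vp_sum p) (1 : ℝ)
    unfold Ex at this
    simpa using this
  have hNp : (0 : ℝ) < (((2 ^ (2 * D * b) : ℕ) : ℝ)) ^ (12 * m') := by positivity
  have hN1 : 0 < 2 ^ (2 * D * b) := Nat.two_pow_pos _
  refine ⟨push (fun X => ∏ i, vp p (X i)) (Gx s f dec),
    push (fun Xa : ((Fin (12 * m') × (Fin (2 * 12 ^ 2 + 14 + 1) → Fin (2 ^ (2 * D * b)))) → Bool) ×
      (Fin (12 * m') → Fin (2 ^ (2 * D * b))) =>
      (∏ i, vp p (Xa.1 i)) * (1 / (((2 ^ (2 * D * b) : ℕ) : ℝ)) ^ (12 * m')))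
      (fun Xa => Gx s f dec (plant (vr s Xa.2) univ Xa.1)),
    ⟨push_nonneg _ _ hμ, by rw [push_total, hμ1]⟩,
    ⟨push_nonneg _ _ (fun Xa => mul_nonneg (hμ _) (by positivity)), ?_⟩, ?_, ?_, ?_⟩
  · rw [push_total, Fintype.sum_prod_type]
    dsimp only
    simp_rw [Finset.sum_const, Finset.card_univ, Fintype.card_fun, Fintype.card_fin, nsmul_eq_mul]
    refine Eq.trans ?_ hμ1
    refine Finset.sum_congr rfl fun X _ => ?_
    push_cast
    field_simp
  · intro G hG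
    obtain ⟨Xa, rfl⟩ := push_ne _ _ _ hG
    refine clique_of_sat s f dec hdec _ Xa.2 ?_
    intro c
    unfold plant
    simp only [Finset.mem_univ, true_and, Bool.or_eq_true, decide_eq_true_eq]
    exact Or.inl ⟨c, rfl⟩
  · rw [push_sum _ (Gx s f dec) (fun G => if CliquesLe (δ * (12 * m' : ℕ)) G then (0 : ℝ) else 1)]
    obtain ⟨L, hLdef⟩ : ∃ L : ℕ, L = 3 * (12 * m') / 4 + 1 := ⟨_, rfl⟩
    have h1 := gap_prob (N := 2 ^ (2 * D * b)) s hp0 hp1 L
    have hQe : 12 * m' ≤ D * (E1 12 * m' + 0) := by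
      calc 12 * m' ≤ E1 12 * m' := Nat.mul_le_mul_right _ (by unfold E1 E0; omega)
        _ = 1 * (E1 12 * m' + 0) := by ring
        _ ≤ D * (E1 12 * m' + 0) := Nat.mul_le_mul_right _ hD
    have hbig : 2 * (24 * (12 * m')) ^ 16 ≤ 2 ^ (D * b) := by
      calc 2 * (24 * (12 * m')) ^ 16 ≤ 2 * (12 * (2 * (D * (E1 12 * m' + 0)))) ^ 16 := by
            apply Nat.mul_le_mul_left
            apply Nat.pow_le_pow_left
            omega
        _ ≤ 2 ^ b := hA
        _ ≤ 2 ^ (D * b) := Nat.pow_le_pow_right (by norm_num)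
            (Nat.le_mul_of_pos_left b (by omega))
    have h2 := gap_arith 12 D b m' ((2 * 12 - 12) * (D * b * m')) L 0 (by norm_num) hbig hQm
      (by omega) (by rw [sub_zero, one_mul])
    rw [← hp, sub_zero, one_mul] at h2
    refine le_trans ?_ (h1.trans h2)
    unfold Ex
    refine Finset.sum_le_sum fun X _ => ?_
    beta_reduce
    by_cases hX : CliquesLe (δ * (12 * m' : ℕ)) (Gx s f dec X)
    · rw [if_pos hX, mul_zero]
      apply mul_nonneg (hμ X)
      split_ifs <;> norm_num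
    · rw [if_neg hX, if_pos]
      unfold CliquesLe at hX
      push Not at hX
      obtain ⟨S, hS, hcard⟩ := hX
      have hS2 : 2 ≤ S.card := by
        have : (1 : ℝ) < S.card := lt_of_le_of_lt hc hcard
        exact_mod_cast this
      obtain ⟨α, hα⟩ := sat_of_clique s f dec hN1 X S hS hS2
      refine ⟨α, ?_⟩
      by_contra hlt
      have h4 := hf (univ.filter (fun c => X (vr s α c) = true)) (by omega)
      have h5 : (univ.filter (fun j => ∀ i, X (vr s α (f j i)) = true)).card =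
          (univ.filter (fun j => ∀ i, f j i ∈
            univ.filter (fun c => X (vr s α c) = true))).card := by
        congr 1
        refine Finset.filter_congr fun j _ => ?_
        simp only [Finset.mem_filter, Finset.mem_univ, true_and]
      rw [h5] at hα
      have h6 : (S.card : ℝ) ≤ ((univ.filter (fun j => ∀ i, f j i ∈
            univ.filter (fun c => X (vr s α c) = true))).card : ℝ) := by exact_mod_cast hα
      linarith
  · intro K hK1 hK2
    rw [push_sum _ _ (fun G => if K.eval (adjBits G) = true then (1 : ℝ) else 0),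
      push_sum _ _ (fun G => if K.eval (adjBits G) = true then (1 : ℝ) else 0)]
    obtain ⟨K', hd', hs', he'⟩ := red_circuit s f dec K
    simp only [← he']
    have hσ : ∀ j, Junta 1 (fun X : (Fin (12 * m') × (Fin (2 * 12 ^ 2 + 14 + 1) →
        Fin (2 ^ (2 * D * b)))) → Bool => sg X j) := by
      intro j
      cases j with
      | none => exact ⟨∅, by simp, fun X Y _ => rfl⟩
      | some x =>
        refine ⟨{x}, by simp, fun X Y h => ?_⟩
        exact h x (by simp)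
    have h1 := adv_le (Y := Bool) (N := 2 ^ (2 * D * b)) Nat.one_le_two_pow s p hp0 hp1 sg K'
    have h2 := csp_first 12 D m' b 0 (D * (E1 12 * m' + 0)) (by norm_num) hD hm' rfl hA hB1 hB2
      s hs hsexp hssm K' (hd'.trans hK1) (le_refl _) sg hσ (by rw [hs']; exact hK2)
    rw [← hp] at h2
    refine h1.trans ?_
    obtain ⟨E, hE⟩ : ∃ E : ℝ, E = Ex (vp p) (fun X => Mb2.cntS s sg K' X) := ⟨_, rfl⟩
    rw [← hE] at h2 ⊢
    calc (1 / (((2 ^ (2 * D * b) : ℕ) : ℝ)) ^ (12 * m')) * E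
        ≤ (1 / (((2 ^ (2 * D * b) : ℕ) : ℝ)) ^ (12 * m')) *
          (3 * (((2 : ℝ) ^ (2 * D * b)) ^ (12 * m') / 2 ^ (D * b))) :=
          mul_le_mul_of_nonneg_left h2 (by positivity)
      _ = 3 / 2 ^ (D * b) := by
          push_cast
          field_simp

end Pool.Agent.H72.Clq
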