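import Mathlib
import Pool.Agent.H568R2.Collapse

/-!
Exhaustive search for cliques in depth two.
-/

namespace Pool.Agent.H72.Clq

open Finset DomAC0 H568R2

section Dnf
variable {J : Type} {r : ℕ}

open Classical in
/-- The wires of an OR of ANDs. -/
noncomputable def dnfPreds (A : Fin r → Finset J) (g : Fin (r + 1)) : Finset (J ⊕ Fin (r + 1)) :=
  if h : g.val < r then (A ⟨g.val, h⟩).image Sum.inl
    else (univ.filter (fun g' : Fin (r + 1) => g'.val < r)).image Sum.inr

lemma dnf_lt (A : Fin r → Finset J) (g : Fin (r + 1)) (hg : g.val < r) (v : J ⊕ Fin (r + 1)) :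
    v ∈ dnfPreds A g ↔ ∃ j ∈ A ⟨g.val, hg⟩, Sum.inl j = v := by
  classical
  unfold dnfPreds
  rw [dif_pos hg, Finset.mem_image]

lemma dnf_ge (A : Fin r → Finset J) (g : Fin (r + 1)) (hg : ¬ g.val < r) (v : J ⊕ Fin (r + 1)) :
    v ∈ dnfPreds A g ↔ ∃ g' : Fin (r + 1), g'.val < r ∧ Sum.inr g' = v := by
  classical
  unfold dnfPreds
  rw [dif_neg hg, Finset.mem_image]
  simp

/-- An OR of ANDs. -/
noncomputable def dnf (A : Fin r → Finset J) : Circuit J where
  size := r + 1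
  kind := fun g => if g.val < r then GateKind.and else GateKind.or
  preds := dnfPreds A
  acyclic := by
    intro g h hh
    by_cases hg : g.val < r
    · obtain ⟨u, _, hu⟩ := (dnf_lt A g hg _).1 hh
      cases hu
    · obtain ⟨g', hg', hu⟩ := (dnf_ge A g hg _).1 hh
      rw [Sum.inr.injEq] at hu
      subst hu
      show g'.val < g.val
      omega
  unary := by
    intro g hg
    split_ifs at hg
  output := Sum.inr (Fin.last r)

variable (A : Fin r → Finset J)

lemma dnf_gate (x : J → Bool) (g : Fin (r + 1)) (hg : g.val < r) :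
    (dnf A).gateVal x g = true ↔ ∀ j ∈ A ⟨g.val, hg⟩, x j = true := by
  rw [gateVal_eq (dnf A) x g]
  unfold gfun
  have hk : (dnf A).kind g = GateKind.and := by
    show (if g.val < r then GateKind.and else GateKind.or) = _
    rw [if_pos hg]
  rw [hk]
  simp only [Finset.mem_toList, decide_eq_true_eq]
  constructor
  · intro h j hj
    exact h (Sum.inl j) ((dnf_lt A g hg _).2 ⟨j, hj, rfl⟩)
  · intro h v hv
    obtain ⟨j, hj, rfl⟩ := (dnf_lt A g hg v).1 hv
    exact h j hj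

lemma dnf_eval (x : J → Bool) :
    (dnf A).eval x = true ↔ ∃ g : Fin r, ∀ j ∈ A g, x j = true := by
  show (dnf A).gateVal x (Fin.last r) = true ↔ _
  rw [gateVal_eq (dnf A) x (Fin.last r)]
  unfold gfun
  have hk : (dnf A).kind (Fin.last r) = GateKind.or := by
    show (if (Fin.last r).val < r then GateKind.and else GateKind.or) = _
    rw [if_neg (by simp)]
  rw [hk]
  simp only [Finset.mem_toList, decide_eq_true_eq]
  have hmem : ∀ v, v ∈ (dnf A).preds (Fin.last r) ↔
      ∃ g : Fin (r + 1), g.val < r ∧ Sum.inr g = v :=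
    fun v => dnf_ge A (Fin.last r) (by simp) v
  constructor
  · rintro ⟨v, hv, h⟩
    obtain ⟨g, hg, rfl⟩ := (hmem v).1 hv
    exact ⟨_, (dnf_gate A x g hg).1 h⟩
  · rintro ⟨i, hi⟩
    have hi' : i.val < r + 1 := by omega
    refine ⟨Sum.inr (⟨i.val, hi'⟩ : Fin (r + 1)), (hmem _).2 ⟨⟨i.val, hi'⟩, i.2, rfl⟩, ?_⟩
    exact (dnf_gate A x ⟨i.val, hi'⟩ i.2).2 hi

lemma dnf_depth : (dnf A).depth ≤ 2 := by
  have h1 : ∀ g : Fin (r + 1), g.val < r → (dnf A).gateDepth g ≤ 1 := by
    intro g hg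
    rw [Circuit.gateDepth]
    apply Nat.succ_le_succ
    apply Finset.sup_le
    rintro ⟨v, hv⟩ _
    obtain ⟨u, _, rfl⟩ := (dnf_lt A g hg v).1 hv
    exact le_refl 0
  show (dnf A).gateDepth (Fin.last r) ≤ 2
  rw [Circuit.gateDepth]
  apply Nat.succ_le_succ
  apply Finset.sup_le
  rintro ⟨v, hv⟩ _
  obtain ⟨g, hg, rfl⟩ := (dnf_ge A (Fin.last r) (by simp) v).1 hv
  exact h1 g hg

end Dnf

/-- `k`-clique in depth two with `n choose k + 1` gates. -/
theorem clique_upper (n k : ℕ) : ∃ K : Circuit (Pairs n), K.depth ≤ 2 ∧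
    K.size = n.choose k + 1 ∧ ∀ G : SimpleGraph (Fin n),
      K.eval (adjBits G) = true ↔ ¬ G.CliqueFree k := by
  classical
  obtain ⟨e⟩ : Nonempty (Fin (n.choose k) ≃ {S : Finset (Fin n) // S.card = k}) := by
    refine ⟨(Fintype.equivFinOfCardEq ?_).symm⟩
    rw [Fintype.card_finset_len, Fintype.card_fin]
  refine ⟨dnf (fun g => univ.filter (fun p : Pairs n => p.1.1 ∈ (e g).1 ∧ p.1.2 ∈ (e g).1)),
    dnf_depth _, rfl, fun G => ?_⟩
  rw [dnf_eval]
  unfold SimpleGraph.CliqueFree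
  push Not
  constructor
  · rintro ⟨g, hg⟩
    refine ⟨(e g).1, ?_⟩
    rw [SimpleGraph.isNClique_iff]
    refine ⟨?_, (e g).2⟩
    rw [SimpleGraph.isClique_iff]
    intro u hu v hv huv
    rcases lt_or_gt_of_ne huv with h | h
    · have h1 := hg ⟨(u, v), h⟩ (Finset.mem_filter.2 ⟨Finset.mem_univ _, hu, hv⟩)
      unfold adjBits at h1
      exact of_decide_eq_true h1
    · have h1 := hg ⟨(v, u), h⟩ (Finset.mem_filter.2 ⟨Finset.mem_univ _, hv, hu⟩)
      unfold adjBits at h1
      exact (of_decide_eq_true h1).symm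
  · rintro ⟨S, hS⟩
    rw [SimpleGraph.isNClique_iff, SimpleGraph.isClique_iff] at hS
    refine ⟨e.symm ⟨S, hS.2⟩, ?_⟩
    intro p hp
    rw [Finset.mem_filter, Equiv.apply_symm_apply] at hp
    unfold adjBits
    rw [decide_eq_true_eq]
    exact hS.1 hp.2.1 hp.2.2 (ne_of_lt p.2)

end Pool.Agent.H72.Clq
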