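import Mathlib
import Pool.Agent.H592R3.AmArith

/-!
The choice of the parameters for the clique problem.
-/

namespace Pool.Agent.H72.Clq

open H592R3

theorem pow_four (b : ℕ) (hb : 70 ≤ b) : 2 ^ (2 * 12 + 16) * b ^ 4 ≤ 2 ^ b := by
  induction b, hb using Nat.le_induction with
  | base => norm_num
  | succ b hb ih =>
    have h1 : (b + 1) ^ 4 ≤ 2 * b ^ 4 := by
      have e1 : 1 ≤ b := by omega
      have e2 : b ^ 2 ≤ b ^ 3 := Nat.pow_le_pow_right e1 (by norm_num)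
      have e3 : b ≤ b ^ 3 := Nat.le_self_pow (by norm_num) b
      have e4 : 1 ≤ b ^ 3 := Nat.one_le_pow _ _ e1
      have e5 : 15 * b ^ 3 ≤ b ^ 4 := by
        calc 15 * b ^ 3 ≤ b * b ^ 3 := Nat.mul_le_mul_right _ (by omega)
          _ = b ^ 4 := by ring
      calc (b + 1) ^ 4 = b ^ 4 + 4 * b ^ 3 + 6 * b ^ 2 + 4 * b + 1 := by ring
        _ ≤ b ^ 4 + 4 * b ^ 3 + 6 * b ^ 3 + 4 * b ^ 3 + b ^ 3 := by omega
        _ = b ^ 4 + 15 * b ^ 3 := by ring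
        _ ≤ b ^ 4 + b ^ 4 := by omega
        _ = 2 * b ^ 4 := by ring
    calc 2 ^ (2 * 12 + 16) * (b + 1) ^ 4 ≤ 2 ^ (2 * 12 + 16) * (2 * b ^ 4) :=
          Nat.mul_le_mul_left _ h1
      _ = 2 * (2 ^ (2 * 12 + 16) * b ^ 4) := by ring
      _ ≤ 2 * 2 ^ b := Nat.mul_le_mul_left _ ih
      _ = 2 ^ (b + 1) := by rw [pow_succ]; ring

theorem clq_params (t C d k n : ℕ) (ht : 1 ≤ t) (hC : 2 ^ 21 + 19393 * t ≤ C) (hd : 1 ≤ d)
    (hk : C ≤ k) (hn : (C * d * k) ^ (C * d) ≤ n) :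
    ∃ b m' : ℕ, 70 ≤ b ∧ 2 ≤ m' ∧ k ≤ 12 * m' ∧ 12 * m' ≤ 2 * k ∧
      2 * (12 * (2 * ((d + 1) * (E1 12 * m' + 0)))) ^ 16 ≤ 2 ^ b ∧
      12 * m' * (2 ^ (2 * (d + 1) * b)) ^ (t * (2 * 12 ^ 2 + 14 + 1)) ≤ n ∧
      n ≤ (2 ^ ((d + 1) * b)) ^ (1212 * t + 1) := by
  have hk21 : 2 ^ 21 ≤ k := by omega
  obtain ⟨m', hm'⟩ : ∃ m' : ℕ, m' = (k + 11) / 12 := ⟨_, rfl⟩
  have hm1 : k ≤ 12 * m' := by omega
  have hm2 : 12 * m' ≤ k + 11 := by omega
  have hm3 : 12 * m' ≤ 2 * k := by omega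
  have hm4 : m' ≤ k := by omega
  have hm5 : 2 ≤ m' := by omega
  have hE : E1 12 = 1336 := rfl
  obtain ⟨P, hP⟩ : ∃ P : ℕ, P = 2 * (12 * (2 * ((d + 1) * (E1 12 * m' + 0)))) ^ 16 := ⟨_, rfl⟩
  have hPup : P ≤ 2 * (2 ^ 16 * d * k) ^ 16 := by
    rw [hP, hE]
    apply Nat.mul_le_mul_left
    apply Nat.pow_le_pow_left
    calc 12 * (2 * ((d + 1) * (1336 * m' + 0))) = 32064 * ((d + 1) * m') := by ring
      _ ≤ 32064 * ((2 * d) * k) := by
          apply Nat.mul_le_mul_left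
          exact Nat.mul_le_mul (by omega) hm4
      _ = 64128 * (d * k) := by ring
      _ ≤ 2 ^ 16 * (d * k) := Nat.mul_le_mul_right _ (by norm_num)
      _ = 2 ^ 16 * d * k := by ring
  have hPlow : 12 * m' ≤ P := by
    rw [hP, hE]
    calc 12 * m' ≤ 12 * (2 * ((d + 1) * (1336 * m' + 0))) := by
          apply Nat.mul_le_mul_left
          calc m' ≤ 1336 * m' + 0 := by omega
            _ = 1 * (1336 * m' + 0) := (one_mul _).symm
            _ ≤ (d + 1) * (1336 * m' + 0) := Nat.mul_le_mul_right _ (by omega)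
            _ ≤ 2 * ((d + 1) * (1336 * m' + 0)) := Nat.le_mul_of_pos_left _ (by norm_num)
      _ ≤ (12 * (2 * ((d + 1) * (1336 * m' + 0)))) ^ 16 := Nat.le_self_pow (by norm_num) _
      _ ≤ 2 * (12 * (2 * ((d + 1) * (1336 * m' + 0)))) ^ 16 :=
          Nat.le_mul_of_pos_left _ (by norm_num)
  have hP2 : 2 ≤ P := by omega
  obtain ⟨b0, hb0⟩ : ∃ b0 : ℕ, b0 = Nat.clog 2 P + 70 := ⟨_, rfl⟩
  have hPb0 : P ≤ 2 ^ b0 := by
    calc P ≤ 2 ^ Nat.clog 2 P := Nat.le_pow_clog (by norm_num) P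
      _ ≤ 2 ^ b0 := Nat.pow_le_pow_right (by norm_num) (by omega)
  have hb0up : 2 ^ b0 ≤ (2 ^ 21 * d * k) ^ 16 := by
    have h5 := Nat.pow_pred_clog_lt_self (b := 2) (by norm_num) (by omega : 1 < P)
    have h6 : Nat.clog 2 P = (Nat.clog 2 P).pred + 1 := by
      have := Nat.clog_pos (b := 2) (by norm_num) (by omega : 2 ≤ P)
      exact (Nat.succ_pred_eq_of_pos this).symm
    have h7 : 2 ^ Nat.clog 2 P ≤ 2 * P := by
      rw [h6, pow_succ]
      omega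
    calc 2 ^ b0 = 2 ^ Nat.clog 2 P * 2 ^ 70 := by rw [hb0, pow_add]
      _ ≤ 2 * P * 2 ^ 70 := Nat.mul_le_mul_right _ h7
      _ ≤ 2 * (2 * (2 ^ 16 * d * k) ^ 16) * 2 ^ 70 := by gcongr
      _ = 2 ^ 72 * (2 ^ 16 * d * k) ^ 16 := by ring
      _ ≤ 2 ^ 80 * (2 ^ 16 * d * k) ^ 16 := by
          apply Nat.mul_le_mul_right
          exact Nat.pow_le_pow_right (by norm_num) (by norm_num)
      _ = (2 ^ 21 * d * k) ^ 16 := by ring
  obtain ⟨Lx, hLx⟩ : ∃ Lx : ℕ, Lx = 2 * (d + 1) * (t * (2 * 12 ^ 2 + 14 + 1)) := ⟨_, rfl⟩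
  have hLxpos : 0 < Lx := by rw [hLx]; positivity
  have hdk1 : 1 ≤ 2 ^ 21 * d * k := Nat.one_le_iff_ne_zero.2 (by
    have : k ≠ 0 := by omega
    have : d ≠ 0 := by omega
    positivity)
  have hbig : 12 * m' * 2 ^ (Lx * b0) ≤ n := by
    refine le_trans ?_ hn
    have h1 : 2 ^ (Lx * b0) ≤ (2 ^ 21 * d * k) ^ (19392 * d * t) := by
      calc 2 ^ (Lx * b0) = (2 ^ b0) ^ Lx := by rw [← pow_mul, mul_comm]
        _ ≤ ((2 ^ 21 * d * k) ^ 16) ^ Lx := Nat.pow_le_pow_left hb0up _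
        _ = (2 ^ 21 * d * k) ^ (16 * Lx) := by rw [← pow_mul]
        _ ≤ (2 ^ 21 * d * k) ^ (19392 * d * t) := by
            apply Nat.pow_le_pow_right hdk1
            rw [hLx]
            calc 16 * (2 * (d + 1) * (t * (2 * 12 ^ 2 + 14 + 1))) = 9696 * t * (d + 1) := by ring
              _ ≤ 9696 * t * (2 * d) := Nat.mul_le_mul_left _ (by omega)
              _ = 19392 * d * t := by ring
    have h2 : 12 * m' ≤ 2 ^ 21 * d * k := by
      calc 12 * m' ≤ 2 * k := hm3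
        _ ≤ 2 ^ 21 * k := Nat.mul_le_mul_right _ (by norm_num)
        _ ≤ 2 ^ 21 * k * d := Nat.le_mul_of_pos_right _ (by omega)
        _ = 2 ^ 21 * d * k := by ring
    calc 12 * m' * 2 ^ (Lx * b0) ≤ (2 ^ 21 * d * k) * (2 ^ 21 * d * k) ^ (19392 * d * t) :=
          Nat.mul_le_mul h2 h1
      _ = (2 ^ 21 * d * k) ^ (19392 * d * t + 1) := by rw [pow_succ]; ring
      _ ≤ (2 ^ 21 * d * k) ^ (C * d) := by
          apply Nat.pow_le_pow_right hdk1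
          have h3 : 1 ≤ d * t := Nat.one_le_iff_ne_zero.2 (by positivity)
          calc 19392 * d * t + 1 = 19392 * (d * t) + 1 := by ring
            _ ≤ 19393 * (d * t) := by omega
            _ = (19393 * t) * d := by ring
            _ ≤ C * d := Nat.mul_le_mul_right _ (by omega)
      _ ≤ (C * d * k) ^ (C * d) := by
          apply Nat.pow_le_pow_left
          apply Nat.mul_le_mul_right
          apply Nat.mul_le_mul_right
          omega
  obtain ⟨n', hn'⟩ : ∃ n' : ℕ, n' = n / (12 * m') := ⟨_, rfl⟩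
  have hmpos : 0 < 12 * m' := by omega
  have hn'low : 2 ^ (Lx * b0) ≤ n' := by
    rw [hn', Nat.le_div_iff_mul_le hmpos]
    calc 2 ^ (Lx * b0) * (12 * m') = 12 * m' * 2 ^ (Lx * b0) := mul_comm _ _
      _ ≤ n := hbig
  have hn'pos : n' ≠ 0 := by
    have : 0 < 2 ^ (Lx * b0) := Nat.two_pow_pos _
    omega
  obtain ⟨b, hb⟩ : ∃ b : ℕ, b = Nat.log 2 n' / Lx := ⟨_, rfl⟩
  have hbb0 : b0 ≤ b := by
    rw [hb, Nat.le_div_iff_mul_le hLxpos]
    have := Nat.le_log_of_pow_le (b := 2) (by norm_num) hn'low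
    calc b0 * Lx = Lx * b0 := mul_comm _ _
      _ ≤ Nat.log 2 n' := this
  have hb70 : 70 ≤ b := by omega
  have hPb : P ≤ 2 ^ b := hPb0.trans (Nat.pow_le_pow_right (by norm_num) hbb0)
  refine ⟨b, m', hb70, hm5, hm1, hm3, by rw [← hP]; exact hPb, ?_, ?_⟩
  · have h1 : Lx * b ≤ Nat.log 2 n' := by
      rw [hb]; exact Nat.mul_div_le _ _
    have h2 : 2 ^ (Lx * b) ≤ n' :=
      (Nat.pow_le_pow_right (by norm_num) h1).trans (Nat.pow_log_le_self 2 hn'pos)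
    calc 12 * m' * (2 ^ (2 * (d + 1) * b)) ^ (t * (2 * 12 ^ 2 + 14 + 1))
        = 12 * m' * 2 ^ (Lx * b) := by
          rw [← pow_mul, hLx]; congr 2; ring
      _ ≤ 12 * m' * n' := Nat.mul_le_mul_left _ h2
      _ ≤ n := by rw [hn']; exact Nat.mul_div_le _ _
  · have h1 : Nat.log 2 n' + 1 ≤ Lx * (b + 1) := by
      rw [hb]
      exact Nat.lt_mul_div_succ _ hLxpos
    have h2 : n' + 1 ≤ 2 ^ (Lx * (b + 1)) := by
      have h3 := Nat.lt_pow_succ_log_self (b := 2) (by norm_num) n'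
      have h4 : 2 ^ (Nat.log 2 n').succ ≤ 2 ^ (Lx * (b + 1)) :=
        Nat.pow_le_pow_right (by norm_num) h1
      omega
    have h3 : n ≤ 12 * m' * (n' + 1) := by
      rw [hn']
      have := Nat.lt_mul_div_succ n hmpos
      exact this.le
    calc n ≤ 12 * m' * (n' + 1) := h3
      _ ≤ 2 ^ b * 2 ^ (Lx * (b + 1)) := Nat.mul_le_mul (hPlow.trans hPb) h2
      _ ≤ 2 ^ ((d + 1) * b) * 2 ^ (2 * (Lx * b)) := by
          apply Nat.mul_le_mul
          · exact Nat.pow_le_pow_right (by norm_num) (Nat.le_mul_of_pos_left b (by omega))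
          · apply Nat.pow_le_pow_right (by norm_num)
            calc Lx * (b + 1) ≤ Lx * (2 * b) := Nat.mul_le_mul_left _ (by omega)
              _ = 2 * (Lx * b) := by ring
      _ = (2 ^ ((d + 1) * b)) ^ (1212 * t + 1) := by
          rw [hLx, ← pow_add, ← pow_mul]
          congr 1
          ring

end Pool.Agent.H72.Clq
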