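import Mathlib
import Pool.Agent.H592R3.Defs

/-!
From the average case to randomised circuits.
-/

set_option linter.unusedSectionVars false

namespace Pool.Agent.H72.Clq

open Finset DomAC0 SmallDepth

open Classical in
theorem rand_gen {J X : Type} [Fintype X] (enc : X → (J → Bool)) (ν₀ ν₁ : X → ℝ)
    (h0 : ∀ x, 0 ≤ ν₀ x) (h01 : ∑ x, ν₀ x = 1) (h1 : ∀ x, 0 ≤ ν₁ x) (h11 : ∑ x, ν₁ x = 1)
    (Y P : X → Prop) (hsat : ∀ x, ν₁ x ≠ 0 → Y x) (δ₀ δ₁ : ℝ)
    (hgap : (∑ x, ν₀ x * (if P x then 0 else 1)) ≤ δ₀)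
    (d : ℕ) (S : ℝ)
    (hadv : ∀ K : Circuit J, K.depth ≤ d → (K.size : ℝ) ≤ S →
        |(∑ x, ν₀ x * (if K.eval (enc x) = true then 1 else 0)) -
          ∑ x, ν₁ x * (if K.eval (enc x) = true then 1 else 0)| ≤ δ₁)
    (hδ : δ₀ + δ₁ < 1 / 3)
    (R : RandCircuit J) (N : ℕ) (hR : R.Bounded d N)
    (hyes : ∀ x, Y x → R.Correct (enc x) True)
    (hno : ∀ x, P x → R.Correct (enc x) False) : S < N := by
  by_contra hcon
  push Not at hcon
  let _ := R.fin
  have hsize : ∀ ω, ((R.circ ω).size : ℝ) ≤ S := fun ω =>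
    le_trans (by exact_mod_cast (hR ω).2) hcon
  obtain ⟨A, hA⟩ : ∃ A : X → ℝ,
      A = fun x => ∑ ω, R.prob ω * (if (R.circ ω).eval (enc x) = true then 1 else 0) := ⟨_, rfl⟩
  have hA0 : ∀ x, 0 ≤ A x := by
    intro x; rw [hA]
    refine Finset.sum_nonneg fun ω _ => mul_nonneg (R.nonneg ω) ?_
    split_ifs <;> norm_num
  have hA1 : ∀ x, A x ≤ 1 := by
    intro x; rw [hA]
    refine le_trans (Finset.sum_le_sum fun ω _ => ?_) R.total.le
    have := R.nonneg ω
    split_ifs <;> linarith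
  have hAy : ∀ x, Y x → 2 / 3 ≤ A x := by
    intro x hx
    have h := hyes x hx
    unfold RandCircuit.Correct at h
    rw [hA]
    refine h.trans (le_of_eq ?_)
    refine Finset.sum_congr rfl fun ω _ => ?_
    simp only [decide_true, mul_ite, mul_one, mul_zero]
  have hAn : ∀ x, P x → A x ≤ 1 / 3 := by
    intro x hx
    have h := hno x hx
    unfold RandCircuit.Correct at h
    have h2 : A x + ∑ ω, (if (R.circ ω).eval (enc x) = false then R.prob ω else 0) = 1 := by
      rw [hA]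
      refine Eq.trans ?_ R.total
      rw [← Finset.sum_add_distrib]
      refine Finset.sum_congr rfl fun ω _ => ?_
      cases (R.circ ω).eval (enc x) <;> simp
    have h3 : (2 : ℝ) / 3 ≤ ∑ ω, (if (R.circ ω).eval (enc x) = false then R.prob ω else 0) := by
      refine h.trans (le_of_eq ?_)
      refine Finset.sum_congr rfl fun ω _ => ?_
      simp only [decide_false]
    linarith
  have hdiff : |(∑ x, ν₀ x * A x) - ∑ x, ν₁ x * A x| ≤ δ₁ := by
    have e : ∀ ν : X → ℝ, ∑ x, ν x * A x =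
        ∑ ω, R.prob ω * ∑ x, ν x * (if (R.circ ω).eval (enc x) = true then 1 else 0) := by
      intro ν
      rw [hA]
      simp_rw [Finset.mul_sum]
      rw [Finset.sum_comm]
      refine Finset.sum_congr rfl fun ω _ => Finset.sum_congr rfl fun x _ => by ring
    rw [e, e, ← Finset.sum_sub_distrib]
    refine (Finset.abs_sum_le_sum_abs _ _).trans ?_
    calc ∑ ω, |R.prob ω * (∑ x, ν₀ x * (if (R.circ ω).eval (enc x) = true then 1 else 0)) -
          R.prob ω * ∑ x, ν₁ x * (if (R.circ ω).eval (enc x) = true then 1 else 0)|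
        ≤ ∑ ω, R.prob ω * δ₁ := by
          refine Finset.sum_le_sum fun ω _ => ?_
          rw [← mul_sub, abs_mul, abs_of_nonneg (R.nonneg ω)]
          exact mul_le_mul_of_nonneg_left (hadv _ (hR ω).1 (hsize ω)) (R.nonneg ω)
      _ = δ₁ := by rw [← Finset.sum_mul, R.total, one_mul]
  have hlow : 2 / 3 ≤ ∑ x, ν₁ x * A x := by
    calc (2 : ℝ) / 3 = ∑ x, ν₁ x * (2 / 3) := by rw [← Finset.sum_mul, h11, one_mul]
      _ ≤ ∑ x, ν₁ x * A x := by
        refine Finset.sum_le_sum fun x _ => ?_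
        by_cases hx : ν₁ x = 0
        · rw [hx]; simp
        · exact mul_le_mul_of_nonneg_left (hAy x (hsat x hx)) (h1 x)
  have hup : ∑ x, ν₀ x * A x ≤ 1 / 3 + δ₀ := by
    calc ∑ x, ν₀ x * A x ≤ ∑ x, (ν₀ x * (1 / 3) + ν₀ x * (if P x then 0 else 1)) := by
          refine Finset.sum_le_sum fun x _ => ?_
          rw [← mul_add]
          apply mul_le_mul_of_nonneg_left _ (h0 x)
          split_ifs with hx
          · have := hAn x hx; linarith
          · have := hA1 x; linarith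
      _ ≤ 1 / 3 + δ₀ := by
          rw [Finset.sum_add_distrib, ← Finset.sum_mul, h01, one_mul]
          linarith
  have := abs_le.1 hdiff
  linarith [this.1]

end Pool.Agent.H72.Clq
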