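import Mathlib
import Pool.Agent.H72.Clq.Core
import Pool.Agent.H72.Clq.Par
import Pool.Agent.H72.Clq.RandGen

/-!
Gap clique for circuits of small depth: assembly.
-/

set_option linter.unusedSectionVars false

namespace Pool.Agent.H72.Clq

open Finset DomAC0 SmallDepth H592R3

theorem card_pairs_le (n : ℕ) : Fintype.card (Pairs n) ≤ n ^ 2 := by
  refine (Fintype.card_subtype_le _).trans ?_
  rw [Fintype.card_prod, Fintype.card_fin, sq]

open Classical in
theorem gap_clique (δ : ℝ) (hδ : 0 < δ) : ∃ C : ℕ, 1 ≤ C ∧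
    ∀ d k n : ℕ, 1 ≤ d → C ≤ k → (C * d * k) ^ (C * d) ≤ n →
      (∃ ν₀ ν₁ : SimpleGraph (Fin n) → ℝ,
        ((∀ G, 0 ≤ ν₀ G) ∧ ∑ G, ν₀ G = 1) ∧ ((∀ G, 0 ≤ ν₁ G) ∧ ∑ G, ν₁ G = 1) ∧
        (∀ G, ν₁ G ≠ 0 → ¬ G.CliqueFree k) ∧
        (∑ G, ν₀ G * (if CliquesLe (δ * k) G then 0 else 1)) ≤ (n : ℝ) ^ (-((k : ℝ) / C)) ∧
        ∀ K : Circuit (Pairs n), K.depth ≤ d → (K.size : ℝ) ≤ (n : ℝ) ^ ((k : ℝ) / C) →
          |(∑ G, ν₀ G * (if K.eval (adjBits G) = true then 1 else 0)) -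
            ∑ G, ν₁ G * (if K.eval (adjBits G) = true then 1 else 0)| ≤
              (n : ℝ) ^ (-(1 / (C : ℝ)))) ∧
      (∀ (R : RandCircuit (Pairs n)) (S : ℕ), R.Bounded d S →
        (∀ G : SimpleGraph (Fin n), ¬ G.CliqueFree k → R.Correct (adjBits G) True) →
        (∀ G : SimpleGraph (Fin n), CliquesLe (δ * k) G → R.Correct (adjBits G) False) →
        (n : ℝ) ^ ((k : ℝ) / C) < S) := by
  obtain ⟨t, ht⟩ : ∃ t : ℕ, t = ⌈5 / (δ / 2)⌉₊ := ⟨_, rfl⟩
  have htδ : 5 ≤ (t : ℝ) * (δ / 2) := by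
    have h1 : 5 / (δ / 2) ≤ (t : ℝ) := by rw [ht]; exact Nat.le_ceil _
    rwa [div_le_iff₀ (by positivity)] at h1
  have ht1 : 1 ≤ t := by
    rcases Nat.eq_zero_or_pos t with h | h
    · rw [h] at htδ; norm_num at htδ
    · exact h
  obtain ⟨V, hV⟩ : ∃ V : ℕ, V = 1212 * t + 1 := ⟨_, rfl⟩
  obtain ⟨C, hC⟩ : ∃ C : ℕ, C = 2 ^ 21 + 19393 * t + 10 * V + ⌈2 / δ⌉₊ := ⟨_, rfl⟩
  have hC1 : 1 ≤ C := by omega
  have hCV : 10 * V ≤ C := by omega
  have hCδ : 2 / δ ≤ (C : ℝ) := by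
    refine (Nat.le_ceil _).trans ?_
    exact_mod_cast (by omega : ⌈2 / δ⌉₊ ≤ C)
  have hCR : (1 : ℝ) ≤ C := by exact_mod_cast hC1
  have hC0 : (0 : ℝ) < C := by linarith
  have hVR : (10 : ℝ) * V ≤ C := by exact_mod_cast hCV
  refine ⟨C, hC1, ?_⟩
  intro d k n hd hk hn
  obtain ⟨b, m', hb70, hm5, hm1, hm3, hA, hn1, hn2⟩ := clq_params t C d k n ht1 (by omega) hd hk hn
  have hkR : (C : ℝ) ≤ k := by exact_mod_cast hk
  have hk0 : (0 : ℝ) < k := by linarith
  -- the size of `n`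
  have hn8 : (8 : ℝ) ≤ (n : ℝ) ^ (1 / (C : ℝ)) := by
    have h1 : 8 ^ C ≤ n := by
      refine le_trans ?_ hn
      have h2 : 8 ≤ C * d * k := by
        calc 8 ≤ C := by omega
          _ ≤ C * d := Nat.le_mul_of_pos_right _ (by omega)
          _ ≤ C * d * k := Nat.le_mul_of_pos_right _ (by omega)
      calc 8 ^ C ≤ (C * d * k) ^ C := Nat.pow_le_pow_left h2 _
        _ ≤ (C * d * k) ^ (C * d) :=
          Nat.pow_le_pow_right (by omega) (Nat.le_mul_of_pos_right _ (by omega))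
    have h3 : ((8 : ℝ) ^ C) ≤ n := by exact_mod_cast h1
    calc (8 : ℝ) = ((8 : ℝ) ^ C) ^ (1 / (C : ℝ)) := by
          rw [← Real.rpow_natCast, ← Real.rpow_mul (by norm_num), mul_one_div_cancel hC0.ne',
            Real.rpow_one]
      _ ≤ (n : ℝ) ^ (1 / (C : ℝ)) := Real.rpow_le_rpow (by positivity) h3 (by positivity)
  have hnpos : (1 : ℝ) ≤ n := by
    have h0 : 1 ≤ n := by
      refine le_trans ?_ hn
      exact Nat.one_le_pow _ _ (by
        have : 0 < C * d := Nat.mul_pos (by omega) (by omega)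
        exact Nat.mul_pos this (by omega))
    exact_mod_cast h0
  have hn0 : (0 : ℝ) < n := by linarith
  -- powers of two
  obtain ⟨q, hq⟩ : ∃ q : ℝ, q = (((d + 1) * b : ℕ) : ℝ) := ⟨_, rfl⟩
  have hq70 : 70 ≤ q := by
    rw [hq]
    exact_mod_cast (le_trans hb70 (Nat.le_mul_of_pos_left b (by omega)))
  have hpow : ∀ y : ℝ, 0 ≤ y → (n : ℝ) ^ y ≤ 2 ^ (q * V * y) := by
    intro y hy
    have h1 : (n : ℝ) ≤ (2 : ℝ) ^ (q * V) := by
      have h2 : (n : ℝ) ≤ (((2 ^ ((d + 1) * b)) ^ (1212 * t + 1) : ℕ) : ℝ) := by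
        exact_mod_cast hn2
      refine h2.trans (le_of_eq ?_)
      rw [← hV, hq, ← Nat.cast_mul, Real.rpow_natCast, Nat.cast_pow, Nat.cast_pow,
        Nat.cast_ofNat, ← pow_mul]
    calc (n : ℝ) ^ y ≤ ((2 : ℝ) ^ (q * V)) ^ y := Real.rpow_le_rpow hn0.le h1 hy
      _ = 2 ^ (q * V * y) := by rw [← Real.rpow_mul (by norm_num)]
  have hVk : (V : ℝ) * ((k : ℝ) / C) ≤ k / 10 := by
    rw [mul_div_assoc', div_le_div_iff₀ hC0 (by norm_num)]
    nlinarith
  have hnk : (n : ℝ) ^ ((k : ℝ) / C) ≤ 2 ^ (q * (k / 10)) := by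
    refine (hpow _ (by positivity)).trans ?_
    apply Real.rpow_le_rpow_of_exponent_le (by norm_num)
    rw [mul_assoc]
    exact mul_le_mul_of_nonneg_left hVk (by linarith)
  have hnC : (n : ℝ) ^ (1 / (C : ℝ)) ≤ 2 ^ (q / 10) := by
    refine (hpow _ (by positivity)).trans ?_
    apply Real.rpow_le_rpow_of_exponent_le (by norm_num)
    have h1 : (V : ℝ) * (1 / C) ≤ 1 / 10 := by
      rw [mul_one_div, div_le_div_iff₀ hC0 (by norm_num)]
      linarith
    calc q * V * (1 / C) = q * (V * (1 / C)) := by ring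
      _ ≤ q * (1 / 10) := mul_le_mul_of_nonneg_left h1 (by linarith)
      _ = q / 10 := by ring
  have hx : ((((2 * 12 - 12) * ((d + 1) * b * m') : ℕ)) : ℝ) = q * (12 * m') := by
    rw [hq]; push_cast; ring
  have hm1R : (k : ℝ) ≤ 12 * m' := by exact_mod_cast hm1
  have hm3R : (12 : ℝ) * m' ≤ 2 * k := by exact_mod_cast hm3
  have hc : 1 ≤ δ / 2 * ((12 * m' : ℕ) : ℝ) := by
    push_cast
    have h1 : 2 / δ ≤ k := hCδ.trans hkR
    rw [div_le_iff₀ hδ] at h1
    nlinarith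
  obtain ⟨ν₀, ν₁, p0, p1, hsat, hgap, hadv⟩ := clique_core t (δ / 2) htδ (d + 1) m' b n
    (by omega) hm5 (by omega) hA (pow_four b hb70) (by nlinarith) hn1 hc
  have hgap' : (∑ G, ν₀ G * (if CliquesLe (δ * k) G then (0 : ℝ) else 1)) ≤
      (n : ℝ) ^ (-((k : ℝ) / C)) := by
    calc (∑ G, ν₀ G * (if CliquesLe (δ * k) G then (0 : ℝ) else 1))
        ≤ ∑ G, ν₀ G * (if CliquesLe (δ / 2 * ((12 * m' : ℕ) : ℝ)) G then (0 : ℝ) else 1) := by
          refine Finset.sum_le_sum fun G _ => ?_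
          apply mul_le_mul_of_nonneg_left _ (p0.1 G)
          by_cases hG : CliquesLe (δ / 2 * ((12 * m' : ℕ) : ℝ)) G
          · have : CliquesLe (δ * k) G := by
              intro S hS
              refine (hG S hS).trans ?_
              push_cast
              nlinarith
            rw [if_pos this, if_pos hG]
          · rw [if_neg hG]
            split_ifs <;> norm_num
      _ ≤ _ := hgap
      _ = 2 ^ (-(q * (12 * m') / 10)) := by rw [hx]
      _ ≤ 2 ^ (-(q * (k / 10))) := by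
          apply Real.rpow_le_rpow_of_exponent_le (by norm_num)
          have := mul_le_mul_of_nonneg_left hm1R (by linarith : (0 : ℝ) ≤ q)
          linarith
      _ ≤ (n : ℝ) ^ (-((k : ℝ) / C)) := by
          rw [Real.rpow_neg (by norm_num), Real.rpow_neg hn0.le]
          exact inv_anti₀ (by positivity) hnk
  have hadv' : ∀ K : Circuit (Pairs n), K.depth ≤ d → (K.size : ℝ) ≤ (n : ℝ) ^ ((k : ℝ) / C) →
      |(∑ G, ν₀ G * (if K.eval (adjBits G) = true then (1 : ℝ) else 0)) -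
        ∑ G, ν₁ G * (if K.eval (adjBits G) = true then (1 : ℝ) else 0)| ≤
          (n : ℝ) ^ (-(1 / (C : ℝ))) := by
    intro K hK1 hK2
    have hsize : Fintype.card (Pairs n) + K.size ≤ 2 ^ ((2 * 12 - 12) * ((d + 1) * b * m')) := by
      have h1 : (Fintype.card (Pairs n) : ℝ) ≤ 2 ^ (q * (k / 5)) := by
        have h2 : (Fintype.card (Pairs n) : ℝ) ≤ (n : ℝ) ^ (2 : ℝ) := by
          rw [show (2 : ℝ) = ((2 : ℕ) : ℝ) by norm_num, Real.rpow_natCast]
          exact_mod_cast card_pairs_le n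
        refine (h2.trans (hpow 2 (by norm_num))).trans ?_
        apply Real.rpow_le_rpow_of_exponent_le (by norm_num)
        have h3 : (V : ℝ) * 2 ≤ k / 5 := by linarith
        calc q * V * 2 = q * (V * 2) := by ring
          _ ≤ q * (k / 5) := mul_le_mul_of_nonneg_left h3 (by linarith)
      have h4 : (K.size : ℝ) ≤ 2 ^ (q * (k / 5)) := by
        refine (hK2.trans hnk).trans ?_
        apply Real.rpow_le_rpow_of_exponent_le (by norm_num)
        apply mul_le_mul_of_nonneg_left _ (by linarith)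
        linarith
      have h5 : ((Fintype.card (Pairs n) + K.size : ℕ) : ℝ) ≤
          ((2 ^ ((2 * 12 - 12) * ((d + 1) * b * m')) : ℕ) : ℝ) := by
        push_cast
        rw [← Real.rpow_natCast]
        have h6 : (2 : ℝ) ^ (q * (k / 5)) + 2 ^ (q * (k / 5)) = 2 ^ (q * (k / 5) + 1) := by
          rw [Real.rpow_add (by norm_num), Real.rpow_one]; ring
        calc (Fintype.card (Pairs n) : ℝ) + K.size ≤ 2 ^ (q * (k / 5)) + 2 ^ (q * (k / 5)) :=
              add_le_add h1 h4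
          _ = 2 ^ (q * (k / 5) + 1) := h6
          _ ≤ 2 ^ (((12 * ((d + 1) * b * m') : ℕ)) : ℝ) := by
              apply Real.rpow_le_rpow_of_exponent_le (by norm_num)
              have h7 : (((12 * ((d + 1) * b * m') : ℕ)) : ℝ) = q * (12 * m') := by
                rw [hq]; push_cast; ring
              rw [h7]
              have h8 := mul_le_mul_of_nonneg_left hm1R (by linarith : (0 : ℝ) ≤ q)
              have h9 : 1 ≤ q * k := by nlinarith
              nlinarith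
      exact_mod_cast h5
    refine (hadv K (by omega) hsize).trans ?_
    rw [Real.rpow_neg hn0.le, ← one_div, div_le_div_iff₀ (by positivity) (by positivity), one_mul]
    have h1 : ((2 : ℝ) ^ ((d + 1) * b)) = 2 ^ q := by rw [hq, Real.rpow_natCast]
    rw [h1]
    have h2 : (2 : ℝ) ^ q = 2 ^ (q / 10) * 2 ^ (9 * q / 10) := by
      rw [← Real.rpow_add (by norm_num)]; congr 1; ring
    have h3 : (3 : ℝ) ≤ 2 ^ (9 * q / 10) := by
      calc (3 : ℝ) ≤ 2 ^ (2 : ℝ) := by norm_num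
        _ ≤ 2 ^ (9 * q / 10) := Real.rpow_le_rpow_of_exponent_le (by norm_num) (by linarith)
    rw [h2]
    calc 3 * (n : ℝ) ^ (1 / (C : ℝ)) ≤ 2 ^ (9 * q / 10) * 2 ^ (q / 10) :=
          mul_le_mul h3 hnC (by positivity) (by positivity)
      _ = _ := mul_comm _ _
  have hsat' : ∀ G, ν₁ G ≠ 0 → ¬ G.CliqueFree k := fun G hG h => hsat G hG (h.mono hm1)
  refine ⟨⟨ν₀, ν₁, p0, p1, hsat', hgap', hadv'⟩, ?_⟩
  intro R S hR hyes hno
  refine rand_gen adjBits ν₀ ν₁ p0.1 p0.2 p1.1 p1.2 (fun G => ¬ G.CliqueFree k)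
    (CliquesLe (δ * k)) hsat' _ _ hgap' d _ hadv' ?_ R S hR hyes hno
  have h1 : (n : ℝ) ^ (-(1 / (C : ℝ))) ≤ 1 / 8 := by
    rw [Real.rpow_neg hn0.le, ← one_div]
    exact one_div_le_one_div_of_le (by norm_num) hn8
  have h2 : (n : ℝ) ^ (-((k : ℝ) / C)) ≤ (n : ℝ) ^ (-(1 / (C : ℝ))) := by
    apply Real.rpow_le_rpow_of_exponent_le hnpos
    apply neg_le_neg
    exact div_le_div_of_nonneg_right (by linarith) hC0.le
  linarith

end Pool.Agent.H72.Clq
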